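import Pool.Agent.Q5.SG.Stm2
import Pool.Agent.Q14.AR.Cheb
import Pool.Agent.Q38.EX.NrmA

/-!
Project SG (helper5), job HX: the cyclic extension ramified only at `𝔮`.
-/

set_option autoImplicit false
set_option linter.unusedSectionVars false

namespace Pool.Agent.Q150.SG

open NumberField IsDedekindDomain Module Pool.Agent.Y18.LC
open Pool.Agent.Q92.AR (Dv prin Pr Ray RayD art nmD nu Cong Pos frob IsFrobenius Unramified mem_Pr art_single
  prin_mul frob_spec isFrobenius_conj)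
open Pool.Agent.Q5.SG

section
variable {K M : Type} [Field K] [NumberField K] [Field M] [NumberField M] [Algebra K M] [IsGalois K M]

/-- the orders of the values of the Artin character bound the orders of the group elements -/
theorem pow_eq_one {ψ : (M ≃ₐ[K] M) →* ℂˣ} (hψ : Function.Injective ψ) {N n : ℕ} (hN : N ≠ 0)
    (h : ∀ D ∈ Pr K N, n • art ψ D = 0) (g : M ≃ₐ[K] M) : g ^ n = 1 := by
  have hfin : {v : HeightOneSpectrum (𝓞 K) | (N : 𝓞 K) ∈ v.asIdeal}.Finite :=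
    Pool.Agent.Q125.AR.finite_dvd hN
  obtain ⟨v, hv, hur, hfr⟩ := Pool.Agent.Q14.AR.cheb K M g _ hfin
  obtain ⟨h0, hh⟩ := isFrobenius_conj hur (frob_spec v) hfr
  have h1 : ψ g = ψ (frob M v) := by
    rw [hh, map_mul, map_mul, map_inv, mul_comm (ψ h0)⁻¹, mul_assoc, inv_mul_cancel, mul_one]
  have h2 : Finsupp.single v 1 ∈ Pr K N := by
    classical
    intro w hw
    rw [Finsupp.single_apply, if_neg]
    rintro rfl
    exact hv hw
  have h3 := h _ h2
  rw [art_single, one_smul, ← ofMul_pow, ofMul_eq_zero] at h3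
  apply hψ
  rw [map_pow, h1, h3, map_one]

/-- exponents of the group kill the values of the Artin character -/
theorem art_smul_eq_zero {ψ : (M ≃ₐ[K] M) →* ℂˣ} {n : ℕ} (h : ∀ g : M ≃ₐ[K] M, g ^ n = 1) (D : Dv K) :
    n • art ψ D = 0 := by
  induction D using Finsupp.induction_linear with
  | zero => rw [map_zero, smul_zero]
  | add a b ha hb => rw [map_add, nsmul_add, ha, hb, add_zero]
  | single v k =>
    rw [art_single, ← natCast_zsmul, zsmul_comm, natCast_zsmul, ← ofMul_pow, ← map_pow, h, map_one,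
      ofMul_one, zsmul_zero]

theorem move {K : Type} [Field K] [NumberField K] (𝔮 : HeightOneSpectrum (𝓞 K)) (x : Kˣ)
    (hx : 𝔮.valuation K (x : K) = 1) {N : ℕ} (hN : N ≠ 0) :
    ∃ y : Kˣ, 𝔮.valuation K ((y : K) - 1) < 1 ∧ prin (x * y) ∈ Pr K N := by
  classical
  have hq0 : Ideal.absNorm 𝔮.asIdeal ≠ 0 := by
    rw [Ne, Ideal.absNorm_eq_zero_iff]
    exact 𝔮.ne_bot
  obtain ⟨z, hz⟩ := Pool.Agent.Q38.EX.approx (K := K) (mul_ne_zero hN hq0)
    (fun w => if w = 𝔮 then 1 else x⁻¹)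
  have hz' : ∀ w : HeightOneSpectrum (𝓞 K), ((N * Ideal.absNorm 𝔮.asIdeal : ℕ) : 𝓞 K) ∈ w.asIdeal →
      w.valuation K ((z : K) / ((if w = 𝔮 then 1 else x⁻¹ : Kˣ) : K) - 1) < 1 := fun w hw =>
    (hz w hw).trans_lt (Pool.Agent.Q38.EX.val_nat_lt_one hw)
  have hone : ∀ (w : HeightOneSpectrum (𝓞 K)) (u : K), w.valuation K (u - 1) < 1 →
      w.valuation K u = 1 := by
    intro w u hu
    have h2 : w.valuation K (u - 1) < w.valuation K (1 : K) := by
      rw [map_one]
      exact hu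
    have h3 := Valuation.map_add_eq_of_lt_right (w.valuation K) h2
    rw [sub_add_cancel, map_one] at h3
    exact h3
  have hq : ((N * Ideal.absNorm 𝔮.asIdeal : ℕ) : 𝓞 K) ∈ 𝔮.asIdeal := by
    rw [Nat.cast_mul]
    exact Ideal.mul_mem_left _ _ (Ideal.absNorm_mem _)
  have h1 : 𝔮.valuation K ((z : K) - 1) < 1 := by
    have h2 := hz' 𝔮 hq
    rw [if_pos rfl, Units.val_one, div_one] at h2
    exact h2
  refine ⟨z, h1, ?_⟩
  intro w hw
  have hval : w.valuation K ((x * z : Kˣ) : K) = 1 := by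
    rw [Units.val_mul]
    by_cases h : w = 𝔮
    · rw [h, map_mul, hx, hone 𝔮 _ h1, one_mul]
    · have h2 := hz' w (by
        rw [Nat.cast_mul]
        exact Ideal.mul_mem_right _ _ hw)
      rw [if_neg h, Units.val_inv_eq_inv_val, div_inv_eq_mul] at h2
      rw [mul_comm]
      exact hone w _ h2
  have h3 := Pool.Agent.Q125.AR.valuation_eq_exp (x * z) w
  rw [hval, ← WithZero.exp_zero, WithZero.exp_inj] at h3
  omega

end

theorem hx : J_HX := by
  intro hCX hUR p _ K _ _ 𝔮 m hm hq hun hpm hu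
  obtain ⟨χ, hχ1, ⟨M0, hM0⟩, x, hx1, hx2⟩ := hCX p K 𝔮 m hm hq hpm hu
  obtain ⟨M, _, _, _, _, ψ, N', hψ, hN', hram, hart, hro⟩ := hUR K 𝔮 hq hun χ hχ1
  have hpow : ∀ g : M ≃ₐ[K] M, g ^ p ^ M0 = 1 := fun g =>
    pow_eq_one hψ hN' (fun D hD => by rw [hart D hD, hM0]) g
  have hP : IsPGroup p (M ≃ₐ[K] M) := fun g => ⟨M0, hpow g⟩
  obtain ⟨m', hm'⟩ := IsPGroup.iff_card.1 hP
  have hcyc : IsCyclic (M ≃ₐ[K] M) :=
    isCyclic_of_injective_ringHom ((Units.coeHom ℂ).comp ψ) (Units.val_injective.comp hψ)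
  obtain ⟨g, hg⟩ := hcyc.exists_generator
  refine ⟨M, inferInstance, inferInstance, inferInstance, inferInstance, g, m', hg, ?_, ?_, hro⟩
  · by_contra hlt
    apply hx2
    have h1 : ∀ g : M ≃ₐ[K] M, g ^ p ^ (m - 1) = 1 := by
      intro g
      have h2 : g ^ p ^ m' = 1 := by
        rw [← hm']
        exact pow_card_eq_one'
      obtain ⟨k, hk⟩ : p ^ m' ∣ p ^ (m - 1) := pow_dvd_pow p (by omega)
      rw [hk, pow_mul, h2, one_pow]
    obtain ⟨y, hy1, hy2⟩ := move 𝔮 x hx1 hN'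
    have h3 := hart _ hy2
    rw [prin_mul, map_add, map_add, hχ1 y hy1, add_zero] at h3
    rw [← h3, ← map_add]
    exact art_smul_eq_zero h1 _
  · rw [← hm', IsGalois.card_aut_eq_finrank]

end Pool.Agent.Q150.SG
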